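import Pool.Agent.Y19.QT.MB
import Pool.Agent.K7.H65.G3.RankK
import Pool.Agent.K7.H65.G3.Lfun

/-!
# Beilinson's conjecture for curves of genus two over multiquadratic fields, on average

For integers `a`, `e` with `e ≠ 0`, `a² ≠ 4 e⁴` let `X` be the smooth projective curve of genus `2` over `ℚ`
with the affine equation `y² = x⁵ + a x³ + e⁴ x`; it has one point at infinity, which is rational.  The
curves `y² = x³ ± 4 e x² + (a + 2 e²) x` are quotients of `X`, and every elliptic curve over `ℚ` with a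
rational point of order two and with `x³`-`x²`-`x` equation `y² = x³ + B x² + C x`, `B ≠ 0`, arises in this
way (up to a change of the coordinates).

`K₀ = ℚ(√ε_1, …, √ε_m)` is a fixed multiquadratic field (for example `ℚ`), and
`K = K₀(√d_1, …, √d_n)` runs through the extensions of degree `2ⁿ` generated by square roots of squarefree
integers `d_i`, `|d_i| ≤ B`.  Let `R(K) = rank CH¹(X_K)₀ + ord_{s=1} L(H¹(X_K), s)`, the sum of the two
sides of the conjecture for `i = 0`.  Then for a constant `c > 0`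

`∑_{|d_1|, …, |d_n| ≤ B} exp (c R(K)) ≤ C Bⁿ (log B)^A`,

so that the two sides of the conjecture differ by `O(log log B)` on average over all these fields, and on
average over every subset of at least `Bⁿ / (log B)^A` of them.

This is proved without a hypothesis for all the quadratic twists of the curves
`y² = x⁵ + 14 x³ + 81 x`, `y² = x⁵ + 30 x³ + 81 x`, `y² = x⁵ + 1710 x³ + 28561 x`, and for all `a`, `e` for which
the quadratic twists of the elliptic curve above are modular (which is true for all `a`, `e` by the modularity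
theorem; here it is a hypothesis, since the theorem is not available in Lean).
-/

set_option autoImplicit false

namespace Pool.Agent.Results.MP_6dc9d1_nt.AverageGenusTwo

open NumberField IsDedekindDomain Polynomial Cardinal

noncomputable section

/-- The number of points over the finite field `E` of the smooth projective curve
`y² = x⁵ + a x³ + e⁴ x` (with the point at infinity). -/
def points (E : Type) [Field E] (a e : E) : ℕ :=
  Nat.card {P : E × E // P.2 ^ 2 = P.1 ^ 5 + a * P.1 ^ 3 + e ^ 4 * P.1} + 1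

/-- the field `ℚ(√d_1, …, √d_n)` -/
def Kd {n : ℕ} (d : Fin n → ℤ) : IntermediateField ℚ ℂ :=
  IntermediateField.adjoin ℚ {z : ℂ | ∃ i, z ^ 2 = (d i : ℂ)}

/-- `d_1, …, d_n` are independent modulo squares, that is, `[ℚ(√d_1, …, √d_n) : ℚ] = 2ⁿ` -/
def Indep {n : ℕ} (d : Fin n → ℤ) : Prop :=
  ∀ T : Finset (Fin n), T.Nonempty → ¬ IsSquare (∏ i ∈ T, d i)

open Classical in
/-- the `n`-tuples `(d_1, …, d_n)` of squarefree integers, `|d_i| ≤ B`, which together with the
`ε_1, …, ε_m` are independent modulo squares -/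
def tup {m : ℕ} (ε : Fin m → ℤ) (n B : ℕ) : Finset (Fin n → ℤ) :=
  (Fintype.piFinset fun _ : Fin n =>
    (Finset.Icc (-(B : ℤ)) B).filter fun d => Squarefree d.natAbs).filter
      fun d => Indep (Fin.append ε d)

/-- The polynomial `y² - (x⁵ + a x³ + e⁴ x)`. -/
def curvePoly (K : Type) [Field K] (a e : ℤ) : K[X][X] :=
  X ^ 2 - C (X ^ 5 + C (a : K) * X ^ 3 + C ((e : K) ^ 4) * X)

/-- The coordinate ring `K[x, y] / (y² - (x⁵ + a x³ + e⁴ x))` of the affine curve. -/
def CoordRing (K : Type) [Field K] (a e : ℤ) : Type := AdjoinRoot (curvePoly K a e)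

instance commRing_coordRing (K : Type) [Field K] (a e : ℤ) : CommRing (CoordRing K a e) :=
  inferInstanceAs (CommRing (AdjoinRoot (curvePoly K a e)))

instance isDomain_coordRing (K : Type) [Field K] [CharZero K] (a e : ℤ) :
    IsDomain (CoordRing K a e) :=
  Pool.Agent.TH943.HJ.isDomain (Pool.Agent.K7.H65.G3.quint_odd (a : K) (e : K))

/-- The class group of the affine coordinate ring.  It is isomorphic to `CH¹(X_K)₀ = Pic⁰(X_K)`, since the
only point at infinity is rational. -/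
def Chow (K : Type) [Field K] [CharZero K] (a e : ℤ) : Type :=
  Additive (ClassGroup (CoordRing K a e))

instance addCommGroup_chow (K : Type) [Field K] [CharZero K] (a e : ℤ) : AddCommGroup (Chow K a e) :=
  inferInstanceAs (AddCommGroup (Additive (ClassGroup (CoordRing K a e))))

/-- `F` is entire and it is, for `Re s > 3/2`, the `L`-function of `H¹(X)`, `X : y² = x⁵ + a x³ + e⁴ x`,
over `K` without the Euler factors at the places `v` dividing `6 e (a² - 4 e⁴) D`: the product over the other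
places of `∏_{j = 1}^{4} (1 - α_{v,j} q_v^(-s))⁻¹`, where `q_v` is the number of elements of the residue field
of `v` and the `α_{v,j}` are the eigenvalues of Frobenius: for all `n ≥ 1` the number of points of the
reduction of `X` over the extension of degree `n` of the residue field (a field `E` with `q_v ^ n` elements
with a map `φ : 𝓞 K → E` of kernel `v`) is `q_v ^ n + 1 - ∑ α_{v,j} ^ n`. -/
def IsLFunction (K : Type) [Field K] (a e D : ℤ) (F : ℂ → ℂ) : Prop :=
  Differentiable ℂ F ∧ ∃ α : HeightOneSpectrum (𝓞 K) → Fin 4 → ℂ,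
    (∀ v : HeightOneSpectrum (𝓞 K), ((6 * e * (a ^ 2 - 4 * e ^ 4) * D : ℤ) : 𝓞 K) ∉ v.asIdeal →
      ∀ n : ℕ, 1 ≤ n → ∀ (E : Type) [Field E] [Finite E] (φ : 𝓞 K →+* E),
        RingHom.ker φ = v.asIdeal → Nat.card E = Nat.card (𝓞 K ⧸ v.asIdeal) ^ n →
          (points E (a : E) (e : E) : ℂ) = (Nat.card E : ℂ) + 1 - ∑ j, α v j ^ n) ∧
    ∀ s : ℂ, (3 : ℝ) / 2 < s.re → HasProd (fun v : HeightOneSpectrum (𝓞 K) =>
      open Classical in
      if ((6 * e * (a ^ 2 - 4 * e ^ 4) * D : ℤ) : 𝓞 K) ∈ v.asIdeal then 1 else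
        (∏ j, (1 - α v j * (Nat.card (𝓞 K ⧸ v.asIdeal) : ℂ) ^ (-s)))⁻¹) (F s)

/-- The sum of the two sides of the conjecture for `X : y² = x⁵ + a x³ + e⁴ x` over `K`, `i = 0`: the rank
of `CH¹(X_K)₀` plus the order of vanishing of `F` at `s = 1`. -/
def bothSides (K : Type) [Field K] [CharZero K] (a e : ℤ) (F : ℂ → ℂ) : ℕ :=
  Module.finrank ℤ (Chow K a e) + (analyticOrderAt F 1).toNat

/-- The two sides of the conjecture for `X` over `K` make sense: the affine coordinate ring is a Dedekind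
domain, the rank of `CH¹(X_K)₀` is finite, `L(H¹(X_K), s)` is the entire function `F`, and `F` is not
identically zero. -/
def Sides (K : Type) [Field K] [CharZero K] (a e D : ℤ) (F : ℂ → ℂ) : Prop :=
  IsDedekindDomain (CoordRing K a e) ∧ Module.rank ℤ (Chow K a e) < ℵ₀ ∧ IsLFunction K a e D F ∧
    analyticOrderAt F 1 ≠ ⊤

/-- `R(K)`, the sum of the two sides of the conjecture for `X` over `K = ℚ(√ε_1, …, √ε_m, √d_1, …, √d_n)`. -/
def R {m n : ℕ} (ε : Fin m → ℤ) (a e : ℤ) (F : (Fin n → ℤ) → ℂ → ℂ) (d : Fin n → ℤ) : ℕ :=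
  bothSides (Kd (Fin.append ε d)) a e (F d)

/-- The bounds for the curve `X : y² = x⁵ + a x³ + e⁴ x` over the fields `K = K₀(√d_1, …, √d_n)`, where
`K₀ = ℚ(√ε_1, …, √ε_m)` is fixed and the `n`-tuple `(d_1, …, d_n)` of squarefree integers with
`[K : K₀] = 2ⁿ` varies: the affine coordinate ring is a Dedekind domain, the rank of `CH¹(X_K)₀` is
finite, `L(H¹(X_K), s)` is an entire function `F_d` and not identically zero; the exponential moment of
`R = rank + order` over the tuples with `|d_i| ≤ B` is at most `C Bⁿ (log B)^A`; for all `k`, `A` and every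
set `S` of such tuples the sum of the `k`-th powers of `R` over `S` is
`O((|S| + Bⁿ / (log B)^A) (1 + log log B)^k)`. -/
def Law (a e : ℤ) : Prop := ∀ (m : ℕ) (ε : Fin m → ℤ) (n : ℕ), ∃ F : (Fin n → ℤ) → ℂ → ℂ,
  (∀ d : Fin n → ℤ, Indep (Fin.append ε d) →
    Sides (Kd (Fin.append ε d)) a e (∏ i, Fin.append ε d i) (F d)) ∧
  (∃ (C c : ℝ) (A : ℕ), 0 < c ∧ ∀ B : ℕ, 3 ≤ B →
    ∑ d ∈ tup ε n B, Real.exp (c * R ε a e F d) ≤ C * (B : ℝ) ^ n * Real.log B ^ A) ∧
  ∀ k A : ℕ, ∃ C : ℝ, ∀ (B : ℕ) (S : Finset (Fin n → ℤ)), 3 ≤ B → S ⊆ tup ε n B →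
    ∑ d ∈ S, (R ε a e F d : ℝ) ^ k ≤
      C * (S.card + (B : ℝ) ^ n / Real.log B ^ A) * (1 + Real.log (Real.log B)) ^ k

open Pool.Agent.Y19.QT in
theorem law_of {a e p q : ℤ} (he : e ≠ 0) (hae : a ^ 2 ≠ 4 * e ^ 4) (hp : p = 81 * a - 270 * e ^ 2)
    (hq : q = 108 * e * (14 * e ^ 2 - 9 * a)) (M₁ : MultiLaw p q) (M₂ : MultiLaw p (-q)) :
    Law a e := by
  classical
  intro m ε n
  obtain ⟨A₁, A₂⟩ := M₁ m ε n
  obtain ⟨B₁, B₂⟩ := M₂ m ε n
  have hF₁ : ∀ d : Fin n → ℤ, ∃ F : ℂ → ℂ, Pool.Agent.Y19.QT.Indep (Fin.append ε d) →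
      IsLFunK (Pool.Agent.Y19.QT.Kd (Fin.append ε d)) p q (∏ i, Fin.append ε d i) F := by
    intro d
    by_cases hd : Pool.Agent.Y19.QT.Indep (Fin.append ε d)
    · obtain ⟨F, hF, -⟩ := (A₁ d hd).2
      exact ⟨F, fun _ => hF⟩
    · exact ⟨0, fun h => absurd h hd⟩
  have hF₂ : ∀ d : Fin n → ℤ, ∃ F : ℂ → ℂ, Pool.Agent.Y19.QT.Indep (Fin.append ε d) →
      IsLFunK (Pool.Agent.Y19.QT.Kd (Fin.append ε d)) p (-q) (∏ i, Fin.append ε d i) F := by
    intro d
    by_cases hd : Pool.Agent.Y19.QT.Indep (Fin.append ε d)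
    · obtain ⟨F, hF, -⟩ := (B₁ d hd).2
      exact ⟨F, fun _ => hF⟩
    · exact ⟨0, fun h => absurd h hd⟩
  choose F₁ hF₁ using hF₁
  choose F₂ hF₂ using hF₂
  obtain ⟨o₁, ⟨C₁, c₁, a₁, hc₁, hX₁⟩, hm₁⟩ := A₂ F₁ hF₁
  obtain ⟨o₂, ⟨C₂, c₂, a₂, hc₂, hX₂⟩, hm₂⟩ := B₂ F₂ hF₂
  have hF : ∀ d : Fin n → ℤ, ∃ F : ℂ → ℂ, Indep (Fin.append ε d) →
      IsLFunction (Kd (Fin.append ε d)) a e (∏ i, Fin.append ε d i) F ∧
      analyticOrderAt F 1 = analyticOrderAt (F₁ d) 1 + analyticOrderAt (F₂ d) 1 := by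
    intro d
    by_cases hd : Indep (Fin.append ε d)
    · obtain ⟨F, hF, ho⟩ := Pool.Agent.K7.H65.G3.exists_L (K := Pool.Agent.Y19.QT.Kd (Fin.append ε d))
        a e (∏ i, Fin.append ε d i) p q he hp hq (F₁ d) (F₂ d) (hF₁ d hd) (hF₂ d hd)
      exact ⟨F, fun _ => ⟨hF, ho⟩⟩
    · exact ⟨0, fun h => absurd h hd⟩
  choose F hF using hF
  -- the rank
  have hrank : ∀ d : Fin n → ℤ, Indep (Fin.append ε d) →
      IsDedekindDomain (CoordRing (Kd (Fin.append ε d)) a e) ∧
      Module.rank ℤ (Chow (Kd (Fin.append ε d)) a e) < ℵ₀ ∧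
      Module.finrank ℤ (Chow (Kd (Fin.append ε d)) a e) ≤
        rkK (Pool.Agent.Y19.QT.Kd (Fin.append ε d)) p q +
        rkK (Pool.Agent.Y19.QT.Kd (Fin.append ε d)) p (-q) := by
    intro d hd
    have h12 : (a + 2 * e ^ 2) * (a - 2 * e ^ 2) ≠ 0 := by
      intro h
      apply hae
      linear_combination h
    have hdom : IsDomain (Pool.Agent.TH943.HJ.CR (Pool.Agent.K7.H65.G3.quint
        ((a : ℤ) : Pool.Agent.Y19.QT.Kd (Fin.append ε d))
        ((e : ℤ) : Pool.Agent.Y19.QT.Kd (Fin.append ε d)))) :=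
      Pool.Agent.TH943.HJ.isDomain (Pool.Agent.K7.H65.G3.quint_odd _ _)
    exact Pool.Agent.K7.H65.G3.rank_K (Pool.Agent.Y19.QT.Kd (Fin.append ε d)) a e p q he h12 hp hq
      (A₁ d hd).1 (B₁ d hd).1
  have hR : ∀ d : Fin n → ℤ, Indep (Fin.append ε d) →
      R ε a e F d ≤
        rkordK (Pool.Agent.Y19.QT.Kd (Fin.append ε d)) p q (F₁ d) +
        rkordK (Pool.Agent.Y19.QT.Kd (Fin.append ε d)) p (-q) (F₂ d) := by
    intro d hd
    have h1 := (hrank d hd).2.2
    have h2 := (hF d hd).2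
    unfold R bothSides rkordK
    rw [h2, ENat.toNat_add (o₁ d hd) (o₂ d hd)]
    omega
  have htup : ∀ B : ℕ, tup ε n B = Pool.Agent.Y19.QT.tup ε n B := fun B => rfl
  have hind : ∀ (B : ℕ) (d : Fin n → ℤ), d ∈ tup ε n B → Indep (Fin.append ε d) := by
    intro B d hd
    exact (Finset.mem_filter.1 hd).2
  refine ⟨F, fun d hd => ⟨(hrank d hd).1, (hrank d hd).2.1, (hF d hd).1, ?_⟩, ?_, ?_⟩
  · rw [(hF d hd).2]
    exact WithTop.add_ne_top.2 ⟨o₁ d hd, o₂ d hd⟩
  · refine ⟨|C₁| + |C₂|, min c₁ c₂ / 2, max a₁ a₂, by positivity, fun B hB => ?_⟩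
    have hlog : 1 ≤ Real.log B := by
      have h3 : (3 : ℝ) ≤ B := by exact_mod_cast hB
      have := Real.log_le_log (by norm_num) h3
      have h4 : (1 : ℝ) < Real.log 3 := by
        rw [Real.lt_log_iff_exp_lt (by norm_num)]
        have := Real.exp_one_lt_d9
        linarith
      linarith
    have s1 := hX₁ B hB
    have s2 := hX₂ B hB
    rw [← htup] at s1 s2
    have hB0 : (0 : ℝ) ≤ (B : ℝ) ^ n := by positivity
    have t1 : C₁ * (B : ℝ) ^ n * Real.log B ^ a₁ ≤ |C₁| * (B : ℝ) ^ n * Real.log B ^ max a₁ a₂ := by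
      refine mul_le_mul (mul_le_mul_of_nonneg_right (le_abs_self _) hB0)
        (pow_le_pow_right₀ hlog (le_max_left _ _)) (by positivity) (by positivity)
    have t2 : C₂ * (B : ℝ) ^ n * Real.log B ^ a₂ ≤ |C₂| * (B : ℝ) ^ n * Real.log B ^ max a₁ a₂ := by
      refine mul_le_mul (mul_le_mul_of_nonneg_right (le_abs_self _) hB0)
        (pow_le_pow_right₀ hlog (le_max_right _ _)) (by positivity) (by positivity)
    have hsum : ∑ d ∈ tup ε n B, Real.exp (min c₁ c₂ / 2 *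
        R ε a e F d) ≤ ∑ d ∈ tup ε n B,
        (Real.exp (c₁ * rkordK (Pool.Agent.Y19.QT.Kd (Fin.append ε d)) p q (F₁ d)) +
         Real.exp (c₂ * rkordK (Pool.Agent.Y19.QT.Kd (Fin.append ε d)) p (-q) (F₂ d))) := by
      refine Finset.sum_le_sum fun d hd => ?_
      have h1 := hR d (hind B d hd)
      have h1' : (R ε a e F d : ℝ) ≤
        rkordK (Pool.Agent.Y19.QT.Kd (Fin.append ε d)) p q (F₁ d) +
        rkordK (Pool.Agent.Y19.QT.Kd (Fin.append ε d)) p (-q) (F₂ d) := by exact_mod_cast h1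
      generalize (R ε a e F d : ℝ) = r at *
      have hx0 : (0 : ℝ) ≤ (rkordK (Pool.Agent.Y19.QT.Kd (Fin.append ε d)) p q (F₁ d) : ℝ) :=
        Nat.cast_nonneg _
      have hy0 : (0 : ℝ) ≤ (rkordK (Pool.Agent.Y19.QT.Kd (Fin.append ε d)) p (-q) (F₂ d) : ℝ) :=
        Nat.cast_nonneg _
      generalize (rkordK (Pool.Agent.Y19.QT.Kd (Fin.append ε d)) p q (F₁ d) : ℝ) = x at *
      generalize (rkordK (Pool.Agent.Y19.QT.Kd (Fin.append ε d)) p (-q) (F₂ d) : ℝ) = y at *
      have hmin0 : 0 < min c₁ c₂ := lt_min hc₁ hc₂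
      rcases le_total x y with hxy | hxy
      · have : min c₁ c₂ / 2 * r ≤ c₂ * y := by
          have h5 : min c₁ c₂ * y ≤ c₂ * y := mul_le_mul_of_nonneg_right (min_le_right _ _) hy0
          nlinarith
        have := Real.exp_le_exp.2 this
        have := Real.exp_pos (c₁ * x)
        linarith
      · have : min c₁ c₂ / 2 * r ≤ c₁ * x := by
          have h5 : min c₁ c₂ * x ≤ c₁ * x := mul_le_mul_of_nonneg_right (min_le_left _ _) hx0
          nlinarith
        have := Real.exp_le_exp.2 this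
        have := Real.exp_pos (c₂ * y)
        linarith
    rw [Finset.sum_add_distrib] at hsum
    have hfin : (|C₁| + |C₂|) * (B : ℝ) ^ n * Real.log B ^ max a₁ a₂ =
        |C₁| * (B : ℝ) ^ n * Real.log B ^ max a₁ a₂ + |C₂| * (B : ℝ) ^ n * Real.log B ^ max a₁ a₂ := by
      ring
    rw [hfin]
    linarith
  · intro k A
    obtain ⟨D₁, hD₁⟩ := hm₁ k A
    obtain ⟨D₂, hD₂⟩ := hm₂ k A
    refine ⟨2 ^ k * (D₁ + D₂), fun B S hB hS => ?_⟩
    have u1 := hD₁ B S hB (by rw [← htup]; exact hS)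
    have u2 := hD₂ B S hB (by rw [← htup]; exact hS)
    have hsum : ∑ d ∈ S, (R ε a e F d : ℝ) ^ k ≤ ∑ d ∈ S,
        2 ^ k * ((rkordK (Pool.Agent.Y19.QT.Kd (Fin.append ε d)) p q (F₁ d) : ℝ) ^ k +
         (rkordK (Pool.Agent.Y19.QT.Kd (Fin.append ε d)) p (-q) (F₂ d) : ℝ) ^ k) := by
      refine Finset.sum_le_sum fun d hd => ?_
      have h1 := hR d (hind B d (hS hd))
      have h1' : (R ε a e F d : ℝ) ≤
        rkordK (Pool.Agent.Y19.QT.Kd (Fin.append ε d)) p q (F₁ d) +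
        rkordK (Pool.Agent.Y19.QT.Kd (Fin.append ε d)) p (-q) (F₂ d) := by exact_mod_cast h1
      have hR0 : (0 : ℝ) ≤ (R ε a e F d : ℝ) := Nat.cast_nonneg _
      generalize (R ε a e F d : ℝ) = r at *
      have hx0 : (0 : ℝ) ≤ (rkordK (Pool.Agent.Y19.QT.Kd (Fin.append ε d)) p q (F₁ d) : ℝ) :=
        Nat.cast_nonneg _
      have hy0 : (0 : ℝ) ≤ (rkordK (Pool.Agent.Y19.QT.Kd (Fin.append ε d)) p (-q) (F₂ d) : ℝ) :=
        Nat.cast_nonneg _
      generalize (rkordK (Pool.Agent.Y19.QT.Kd (Fin.append ε d)) p q (F₁ d) : ℝ) = x at *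
      generalize (rkordK (Pool.Agent.Y19.QT.Kd (Fin.append ε d)) p (-q) (F₂ d) : ℝ) = y at *
      have hxk : 0 ≤ x ^ k := pow_nonneg hx0 k
      have hyk : 0 ≤ y ^ k := pow_nonneg hy0 k
      have h2k : (0 : ℝ) < 2 ^ k := by positivity
      rcases le_total x y with hxy | hxy
      · have : r ^ k ≤ (2 * y) ^ k := pow_le_pow_left₀ hR0 (by linarith) k
        rw [mul_pow] at this
        nlinarith
      · have : r ^ k ≤ (2 * x) ^ k := pow_le_pow_left₀ hR0 (by linarith) k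
        rw [mul_pow] at this
        nlinarith
    rw [← Finset.mul_sum, Finset.sum_add_distrib] at hsum
    have h2k : (0 : ℝ) < 2 ^ k := by positivity
    have := mul_le_mul_of_nonneg_left (add_le_add u1 u2) h2k.le
    calc _ ≤ _ := hsum
      _ ≤ _ := this
      _ = _ := by ring

open Pool.Agent.Y19.QT in
/-- **Main theorem.** The law holds for all the quadratic twists of the curves
`y² = x⁵ + 14 x³ + 81 x`, `y² = x⁵ + 30 x³ + 81 x` and `y² = x⁵ + 1710 x³ + 28561 x`, and for all curves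
`y² = x⁵ + a x³ + e⁴ x` such that the quadratic twists of the elliptic curve
`y² = x³ + (81 a - 270 e²) x + 108 e (14 e² - 9 a)`, which is isomorphic to
`y² = x³ + 4 e x² + (a + 2 e²) x`, are modular. -/
theorem result : (∀ t : ℤ, t ≠ 0 → Law (14 * t ^ 2) (3 * t) ∧ Law (30 * t ^ 2) (3 * t) ∧
      Law (1710 * t ^ 2) (13 * t)) ∧
    ∀ a e : ℤ, e ≠ 0 → a ^ 2 ≠ 4 * e ^ 4 →
      TwistsModular (81 * a - 270 * e ^ 2) (108 * e * (14 * e ^ 2 - 9 * a)) → Law a e := by
  refine ⟨fun t ht => ⟨?_, ?_, ?_⟩, fun a e he hae h => ?_⟩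
  · have h0 : t ^ 4 ≠ 0 := pow_ne_zero 4 ht
    refine law_of (mul_ne_zero (by norm_num) ht) (fun h => h0 ?_) rfl rfl (multiLaw_fam (Or.inl ?_))
      (multiLaw_fam (Or.inl ?_))
    · nlinarith
    · refine ⟨fun h => ht ?_, by ring⟩
      have : t ^ 2 = 0 := by linarith
      exact pow_eq_zero_iff (by norm_num) |>.1 this
    · refine ⟨fun h => ht ?_, by ring⟩
      have : t ^ 2 = 0 := by linarith
      exact pow_eq_zero_iff (by norm_num) |>.1 this
  · have h0 : t ^ 4 ≠ 0 := pow_ne_zero 4 ht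
    have h3 : t ^ 3 ≠ 0 := pow_ne_zero 3 ht
    refine law_of (mul_ne_zero (by norm_num) ht) (fun h => h0 ?_) rfl rfl
      (multiLaw_fam (Or.inr (Or.inl ?_))) (multiLaw_fam (Or.inr (Or.inl ?_)))
    · nlinarith
    · exact ⟨by ring, fun h => h3 (by linarith)⟩
    · exact ⟨by ring, fun h => h3 (by linarith)⟩
  · have h0 : t ^ 4 ≠ 0 := pow_ne_zero 4 ht
    refine law_of (mul_ne_zero (by norm_num) ht) (fun h => h0 ?_) rfl rfl
      (multiLaw_fam (Or.inr (Or.inr ⟨4 * t, mul_ne_zero (by norm_num) ht, Or.inr ⟨by ring, by ring⟩⟩)))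
      (multiLaw_fam (Or.inr (Or.inr ⟨-(4 * t), neg_ne_zero.2 (mul_ne_zero (by norm_num) ht),
        Or.inr ⟨by ring, by ring⟩⟩)))
    nlinarith
  · have hdisc : 4 * (81 * a - 270 * e ^ 2) ^ 3 + 27 * (108 * e * (14 * e ^ 2 - 9 * a)) ^ 2 ≠ 0 := by
      have h1 : 4 * (81 * a - 270 * e ^ 2) ^ 3 + 27 * (108 * e * (14 * e ^ 2 - 9 * a)) ^ 2 =
          2125764 * (a + 2 * e ^ 2) * ((a + 2 * e ^ 2) * (a - 2 * e ^ 2)) := by ring
      have h12 : (a + 2 * e ^ 2) * (a - 2 * e ^ 2) ≠ 0 := by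
        intro h
        apply hae
        linear_combination h
      rw [h1]
      exact mul_ne_zero (mul_ne_zero (by norm_num) (left_ne_zero_of_mul h12)) h12
    refine law_of he hae rfl rfl (multiLaw_modular hdisc h) (multiLaw_modular (by rwa [neg_sq]) ?_)
    intro g hg
    obtain ⟨N, f, hf⟩ := h (-g) (neg_ne_zero.2 hg)
    refine ⟨N, f, ?_⟩
    have e1 : (81 * a - 270 * e ^ 2) * (-g) ^ 2 = (81 * a - 270 * e ^ 2) * g ^ 2 := by ring
    have e2 : 108 * e * (14 * e ^ 2 - 9 * a) * (-g) ^ 3 = -(108 * e * (14 * e ^ 2 - 9 * a)) * g ^ 3 := by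
      ring
    rwa [e1, e2] at hf

end

end Pool.Agent.Results.MP_6dc9d1_nt.AverageGenusTwo
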