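import Pool.Agent.K7.H65.G4.Tors
import Pool.Agent.K7.H65.G5.LfunE
import Pool.Agent.K7.H65.G5.Two
import Pool.Agent.K7.H65.G5.Pure

/-!
# Beilinson's conjecture for a curve of genus two over pure cubic fields

Let `X` be the smooth projective curve of genus `2` over `ℚ` with the affine equation

`y² = 2 x⁶ - 30 x⁴ + 150 x² + 6 = 2 (x² - 5)³ + 256`.

Let `N` run through the cube-free numbers prime to `3`, not `±1` modulo `9`, which are divisible by exactly one
prime `2` modulo `3` (and by any number of primes `1` modulo `3`), and let `k` be the pure cubic field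
`ℚ(∛N)` or its Galois closure `ℚ(∛N, √-3)`.

* `L(H¹(X), s)` over `k`, without the Euler factors at the places that divide `6`, continues to an entire
  function for all these `N`.
* If `N` has no splitting `d₀ d₁ d₂` (a condition on the cubic residue symbols of the primes that divide
  `N`), then Beilinson's conjecture for `X` over `k`, `i = 0`, is true, both sides are `0`: `CH¹(X)₀` is killed by a
  positive integer, and the value at `s = 1` of the entire function is not `0`.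
* This is the case for at least the proportion `∏_{i ≥ 1} (1 - 3^{-i}) - ε` of the `N`, and the product is
  greater than `0.56`.

Here `2` is not a square in `k`, so that the curve `X` over `k` has one closed point `∞` at infinity, of
degree `2`, and `CH¹(X)₀ = Pic⁰(X)` is a subgroup (of index `1` or `2`) of `Pic(X) / ⟨∞⟩`, which is the class group of
the coordinate ring `k[x, y] / (y² - (2 x⁶ - 30 x⁴ + 150 x² + 6))` of the affine curve, a Dedekind domain.
An Euler factor at a place that divides `6` is the inverse of a polynomial in `q_v ^ (-s)` whose roots are not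
at the centre, so that it changes nothing.

The Jacobian of `X` is isogenous to `E²`, `E : y² + y = x³`, see the hand-in `GenusTwoTwoExtensions`.  The
input on `E`, that is the finiteness of `E(k)` and the continuation of the `L`-function of `E/k` with a value
`≠ 0` at `s = 1`, is (for the cubic fields) the hand-in `AllPureCubicFields` (helper419 and others).
-/

set_option autoImplicit false

namespace Pool.Agent.Results.MP_6dc9d1_nt.GenusTwoPureCubic

open NumberField IsDedekindDomain Polynomial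
open scoped Classical

noncomputable section

/-- `N` is not zero, not divisible by the cube of a prime, not divisible by `3`, not `±1` modulo `9`,
and divisible by exactly one prime that is `2` modulo `3`. -/
def InClass (N : ℕ) : Prop :=
  N ≠ 0 ∧ (∀ p : ℕ, p.Prime → ¬ p ^ 3 ∣ N) ∧ ¬ 3 ∣ N ∧ N % 9 ≠ 1 ∧ N % 9 ≠ 8 ∧
    ∃ q : ℕ, q.Prime ∧ q % 3 = 2 ∧ q ∣ N ∧ ∀ p : ℕ, p.Prime → p ∣ N → p ≠ q → p % 3 = 1

/-- In every factorization of `N` in coprime factors `d₀ d₁ d₂` for which `d₁ d₂²`, `d₂ d₀²`,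
`d₀ d₁²` are cubes modulo the primes dividing `d₀`, `d₁`, `d₂` respectively, two factors are `1`. -/
def HasNoSplitting (N : ℕ) : Prop :=
  ∀ d : ZMod 3 → ℕ, ∏ c, d c = N → (∀ c c', c ≠ c' → Nat.Coprime (d c) (d c')) →
    (∀ (c : ZMod 3) (p : ℕ), p.Prime → p ∣ d c →
      ∃ x : ℤ, (p : ℤ) ∣ (d (c + 1) : ℤ) * (d (c + 2) : ℤ) ^ 2 - x ^ 3) →
    ∃ c, ∀ c', c' ≠ c → d c' = 1

/-- `k` is the pure cubic field `ℚ(∛N)` or its Galois closure `ℚ(∛N, √-3)`. -/
def IsPureField (N : ℕ) (k : Type) [Field k] [NumberField k] : Prop :=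
  (∃ θ : k, θ ^ 3 = (N : k)) ∧
    (Module.finrank ℚ k = 3 ∨ (Module.finrank ℚ k = 6 ∧ ∃ x : k, x ^ 2 = -3))

/-- The number of points over the finite field `E` of the smooth projective curve
`y² = 2 x⁶ - 30 x⁴ + 150 x² + 6`: the affine points, and the points at infinity, one for each square
root of `2` in `E`. -/
def points (E : Type) [Field E] : ℕ :=
  Nat.card {P : E × E // P.2 ^ 2 = 2 * P.1 ^ 6 - 30 * P.1 ^ 4 + 150 * P.1 ^ 2 + 6} +
    Nat.card {z : E // z ^ 2 = 2}

/-- The polynomial `y² - (2 x⁶ - 30 x⁴ + 150 x² + 6)`. -/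
def curvePoly (k : Type) [Field k] : k[X][X] := X ^ 2 - C (2 * X ^ 6 - 30 * X ^ 4 + 150 * X ^ 2 + 6)

/-- The coordinate ring `k[x, y] / (y² - (2 x⁶ - 30 x⁴ + 150 x² + 6))` of the affine curve. -/
def CoordRing (k : Type) [Field k] : Type := AdjoinRoot (curvePoly k)

instance commRing_coordRing (k : Type) [Field k] : CommRing (CoordRing k) :=
  inferInstanceAs (CommRing (AdjoinRoot (curvePoly k)))

/-- `CH¹(X)₀ ⊗ ℚ = 0` for `X : y² = 2 x⁶ - 30 x⁴ + 150 x² + 6` over `k`: `2` is not a square in `k`, so that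
there is one closed point `∞` at infinity, of degree `2`; the coordinate ring of the affine curve is a
Dedekind domain; and its class group, which is `Pic(X) / ⟨∞⟩` and contains `CH¹(X)₀ = Pic⁰(X)` (with index
`1` or `2`), is killed by some `n > 0`. -/
def ChowTorsion (k : Type) [Field k] : Prop :=
  ¬ IsSquare (2 : k) ∧ ∃ _ : IsDomain (CoordRing k), IsDedekindDomain (CoordRing k) ∧
    ∃ n : ℕ, 0 < n ∧ ∀ a : ClassGroup (CoordRing k), a ^ n = 1

/-- `Λ` is entire and it is, for `Re s > 3/2`, the `L`-function of `H¹(X)`,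
`X : y² = 2 x⁶ - 30 x⁴ + 150 x² + 6`, over `k` without the Euler factors at the places `v` dividing `6`: the
product over the other places of `∏_{j = 1}^{4} (1 - α_{v,j} q_v^(-s))⁻¹`, where `q_v` is the number of
elements of the residue field of `v` and the `α_{v,j}` are the eigenvalues of Frobenius: for all `n ≥ 1` the
number of points of the reduction of `X` over the extension of degree `n` of the residue field (a field
`E` with `q_v ^ n` elements with a map `φ : 𝓞 k → E` of kernel `v`) is `q_v ^ n + 1 - ∑ α_{v,j} ^ n`. -/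
def IsLFunction (k : Type) [Field k] (Λ : ℂ → ℂ) : Prop :=
  Differentiable ℂ Λ ∧ ∃ α : HeightOneSpectrum (𝓞 k) → Fin 4 → ℂ,
    (∀ v : HeightOneSpectrum (𝓞 k), (6 : 𝓞 k) ∉ v.asIdeal →
      ∀ n : ℕ, 1 ≤ n → ∀ (E : Type) [Field E] [Finite E] (φ : 𝓞 k →+* E),
        RingHom.ker φ = v.asIdeal → Nat.card E = Nat.card (𝓞 k ⧸ v.asIdeal) ^ n →
          (points E : ℂ) = (Nat.card E : ℂ) + 1 - ∑ j, α v j ^ n) ∧
    ∀ s : ℂ, (3 : ℝ) / 2 < s.re → HasProd (fun v : HeightOneSpectrum (𝓞 k) =>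
      if (6 : 𝓞 k) ∈ v.asIdeal then 1 else
        (∏ j, (1 - α v j * (Nat.card (𝓞 k ⧸ v.asIdeal) : ℂ) ^ (-s)))⁻¹) (Λ s)

/-- Beilinson's conjecture, `i = 0`, for `X : y² = 2 x⁶ - 30 x⁴ + 150 x² + 6` over `k` is true and both
sides are `0`. -/
def BothSidesZero (k : Type) [Field k] : Prop :=
  ChowTorsion k ∧ ∃ Λ : ℂ → ℂ, IsLFunction k Λ ∧ Λ 1 ≠ 0

theorem class_iff (N : ℕ) : InClass N ↔ Pool.Agent.Y703.CT.Cls N := by
  unfold InClass Pool.Agent.Y703.CT.Cls Pool.Agent.Y703.CT.Base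
  constructor
  · rintro ⟨h1, h2, h3, h4, h5, h6⟩
    exact ⟨⟨h1, h3, h2⟩, h4, h5, h6⟩
  · rintro ⟨⟨h1, h3, h2⟩, h4, h5, h6⟩
    exact ⟨h1, h2, h3, h4, h5, h6⟩

/-- the theorem for one field -/
theorem one {N : ℕ} (hN : InClass N) (k : Type) [Field k] [NumberField k] (hk : IsPureField N k) :
    (∃ Λ : ℂ → ℂ, IsLFunction k Λ) ∧ (HasNoSplitting N → BothSidesZero k) := by
  obtain ⟨⟨θ, hθ⟩, hdeg⟩ := hk
  have hC := (class_iff N).1 hN
  obtain ⟨⟨Lf, k1, k2, k3⟩, hH, h2⟩ :
      Pool.Agent.Y696.CTE.LawE k (Pool.Agent.Y703.CT.NoSplit N) ∧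
      (∀ v : HeightOneSpectrum (𝓞 k), Pool.Agent.Y696.HBd
        (Pool.Agent.W189.NF.aV (Pool.Agent.Y696.E0 k) v)
        (Pool.Agent.W189.NF.eV (Pool.Agent.Y696.E0 k) v)
        (Pool.Agent.H921R2.TatePole.nm v)) ∧ ¬ IsSquare (2 : k) := by
    rcases hdeg with hd | ⟨hd, x, hx⟩
    · exact ⟨Pool.Agent.R419.CE.law_all hC k θ hd hθ, Pool.Agent.K7.H65.G5.hasse3 hC k θ hd hθ,
        Pool.Agent.K7.H65.G5.not_sq3 hd⟩
    · obtain ⟨h1, h2⟩ := Pool.Agent.K7.H65.G5.law6 hC k θ x hd hx hθ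
      exact ⟨h1, h2, Pool.Agent.K7.H65.G5.not_sq6 hd hx⟩
  obtain ⟨Λ, hΛ, hΛ1⟩ := Pool.Agent.K7.H65.G5.exists_LXE hH Lf k1 fun s hs => (k2 s hs).2
  refine ⟨⟨Λ, hΛ⟩, fun hs => ?_⟩
  obtain ⟨h5, hfin, -⟩ := k3 hs
  refine ⟨⟨h2, ?_⟩, Λ, hΛ, hΛ1 h5⟩
  have : Finite (Pool.Agent.K7.H65.G4.E27 k).toAffine.Point := hfin
  have hd : IsDomain (Pool.Agent.TH943.HJ.CR (Pool.Agent.K7.H65.G4.sx k)) :=
    Pool.Agent.K7.H65.G4.isDomain (Pool.Agent.K7.H65.G4.ns_sx h2)
  exact ⟨hd, Pool.Agent.K7.H65.G4.ded_sx h2, Pool.Agent.K7.H65.G4.class_exp h2⟩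

/-- **Main theorem.** -/
theorem result :
    (∀ N : ℕ, InClass N →
      (∃ (k : Type) (_ : Field k) (_ : NumberField k), IsPureField N k) ∧
      ∀ (k : Type) [Field k] [NumberField k], IsPureField N k →
        (∃ Λ : ℂ → ℂ, IsLFunction k Λ) ∧ (HasNoSplitting N → BothSidesZero k)) ∧
    (0.56 : ℝ) < ∏' i : ℕ, (1 - (1 / 3 : ℝ) ^ (i + 1)) ∧
    ∀ ε : ℝ, 0 < ε → ∃ X₀ : ℕ, ∀ X : ℕ, X₀ ≤ X →
      ((∏' i : ℕ, (1 - (1 / 3 : ℝ) ^ (i + 1))) - ε) *
          (((Finset.Icc 1 X).filter fun N => InClass N).card : ℝ) ≤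
        (((Finset.Icc 1 X).filter fun N => InClass N ∧
          ∀ (k : Type) [Field k] [NumberField k], IsPureField N k → BothSidesZero k).card : ℝ) := by
  refine ⟨fun N hN => ⟨?_, fun k _ _ hk => one hN k hk⟩, Pool.Agent.Y461.CX.t_C3.2.2.2, ?_⟩
  · obtain ⟨k, i1, i2, θ, hd, hθ⟩ := Pool.Agent.R419.CE.ex_field ((class_iff N).1 hN)
    exact ⟨k, i1, i2, ⟨θ, hθ⟩, Or.inl hd⟩
  · intro ε hε
    obtain ⟨X₀, h⟩ := (Metric.tendsto_atTop.1 Pool.Agent.R419.CF.t_FIN) ε hε
    refine ⟨X₀, fun X hX => ?_⟩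
    have h2 := h X hX
    rw [Real.dist_eq, abs_lt] at h2
    have h3 := h2.1
    have e1 : (Finset.Icc 1 X).filter (fun N => InClass N) =
      (Finset.Icc 1 X).filter fun N => Pool.Agent.Y703.CT.Cls N :=
        Finset.filter_congr fun N _ => class_iff N
    rw [e1]
    set A := (((Finset.Icc 1 X).filter fun N => Pool.Agent.Y703.CT.Cls N).card : ℝ) with hA
    set B := (((Finset.Icc 1 X).filter fun D =>
      Pool.Agent.Y703.CT.Cls D ∧ Pool.Agent.Y703.CT.NoSplit D).card : ℝ) with hB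
    have hA0 : 0 ≤ A := Nat.cast_nonneg _
    have h4 : (Pool.Agent.Y703.CX.c3 - ε) * A ≤ B := by
      rcases hA0.eq_or_lt with h0 | h0
      · rw [← h0, mul_zero]
        exact Nat.cast_nonneg _
      · rw [← le_div_iff₀ h0]
        linarith
    refine h4.trans ?_
    rw [hB]
    norm_cast
    refine Finset.card_le_card fun N hN => ?_
    obtain ⟨a1, a3, a4⟩ := Finset.mem_filter.1 hN
    exact Finset.mem_filter.2 ⟨a1, (class_iff N).2 a3, fun k _ _ hk =>
      (one ((class_iff N).2 a3) k hk).2 a4⟩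

end

end Pool.Agent.Results.MP_6dc9d1_nt.GenusTwoPureCubic
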