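import Pool.Agent.Results.MP_6dc9d1_nt.OddSymmetricPowers
import Pool.Agent.K7.H65.G2.Expo
import Pool.Agent.K7.H65.G2.Lfun

/-!
# Beilinson's conjecture for curves of genus two over infinite towers of multiquadratic extensions
# of `ℚ(i)`

For `D = (1 + i) d`, `d` a squarefree Gaussian integer congruent to `1` modulo `2 + 2 i`, let `X_D` be the
smooth projective curve of genus `2` with the affine equation `y² = x⁵ + 14 D² x³ + 81 D⁴ x`.  It has one
point `∞` at infinity, which is rational.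

Let `S` be any finite set of primary squarefree Gaussian integers.  For a set of `d` of lower density at
least `0.419 ^ (2 ^ #S)` among the primary squarefree `d` prime to `S` Beilinson's conjecture holds for
`X_D`, `i = 0`, over *all* the number fields `F` with `ℚ(i) ⊆ F ⊆ ℚ(i)(√δ : δ ∈ S, √l : l ∈ U)`, `U` any
finite set of rational primes `l = 3 mod 8`, `l = 1 mod N(d ∏ S)` (there are infinitely many such
`l`): both sides are `0`.

* `CH¹(X)₀` is killed by an integer `n > 0`, so that `CH¹(X)₀ ⊗ ℚ = 0`.  As `∞` is rational,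
  `CH¹(X)₀ = Pic⁰(X)` is isomorphic to the class group of the affine coordinate ring
  `F[x, y] / (y² - (x⁵ + 14 D² x³ + 81 D⁴ x))`, a Dedekind domain: this is the group used below.
* `L(H¹(X), s)` is entire and not `0` at `s = 1`.  (The Euler factors at the finitely many places which
  divide `3 D` or the elements of `S` and `U` are left out.  Such a factor is the inverse of a
  polynomial in `q_v^(-s)` whose roots are not at the centre, so it changes nothing.)
-/

set_option autoImplicit false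

namespace Pool.Agent.Results.MP_6dc9d1_nt.GenusTwoTowers

open Finset NumberField IsDedekindDomain Polynomial

/-- `D` is squarefree and congruent to `1` modulo `2 + 2 i`. -/
def Primary (D : GaussianInt) : Prop := Squarefree D ∧ (⟨2, 2⟩ : GaussianInt) ∣ D - 1

/-- The primary squarefree `d` of norm at most `B` which are prime to all elements of `S`. -/
def Twists (S : Finset GaussianInt) (B : ℝ) : Set GaussianInt :=
  {d | Primary d ∧ (∀ D ∈ S, IsCoprime d D) ∧ ((d.norm : ℤ) : ℝ) ≤ B}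

/-- The number of points over the finite field `E` of the smooth projective curve
`y² = x⁵ + 14 c² x³ + 81 c⁴ x` (with the point at infinity). -/
noncomputable def points (E : Type) [Field E] (c : E) : ℕ :=
  Nat.card {P : E × E // P.2 ^ 2 = P.1 ^ 5 + 14 * c ^ 2 * P.1 ^ 3 + 81 * c ^ 4 * P.1} + 1

section

variable {F : Type} [Field F] [NumberField F]

/-- `F = ℚ(i)(√δ : δ ∈ s)`, where `ℤ[i]` is embedded in `F` by `ι`. -/
def Generated (ι : GaussianInt →+* 𝓞 F) (s : Finset GaussianInt) : Prop :=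
  ∃ r : GaussianInt → 𝓞 F, (∀ d ∈ s, r d ^ 2 = ι d) ∧
    ∀ L : Subfield F, (∀ g : GaussianInt, (ι g : F) ∈ L) → (∀ d ∈ s, (r d : F) ∈ L) → L = ⊤

/-- `q_v`, the number of elements of the residue field of `v`. -/
noncomputable def q (v : HeightOneSpectrum (𝓞 F)) : ℕ := Ideal.absNorm v.asIdeal

/-- The coordinate ring `F[x, y] / (y² - (x⁵ + 14 c² x³ + 81 c⁴ x))` of the affine curve. -/
noncomputable abbrev coordRing (c : F) : Type :=
  AdjoinRoot (X ^ 2 - C (X ^ 5 + C (14 * c ^ 2) * X ^ 3 + C (81 * c ^ 4) * X) : F[X][X])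

/-- `CH¹(X)₀ ⊗ ℚ = 0` for `X : y² = x⁵ + 14 c² x³ + 81 c⁴ x` over `F`: the coordinate ring of the affine
curve is a Dedekind domain, and its class group, which is isomorphic to `CH¹(X)₀`, is killed by some
`n > 0`. -/
def ChowTorsion (c : F) : Prop :=
  ∃ _ : IsDomain (coordRing c), IsDedekindDomain (coordRing c) ∧
    ∃ n : ℕ, 0 < n ∧ ∀ a : ClassGroup (coordRing c), a ^ n = 1

/-- `L` is entire and it is, for `X : y² = x⁵ + 14 D² x³ + 81 D⁴ x` over `F`, the `L`-function of `H¹(X)`
without the Euler factors at the places which divide `M`: for `Re z > 3 / 2` it is the product over the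
other places `v` of `∏_{j = 1}^{4} (1 - α_{v,j} q_v^(-z))⁻¹`, where `α_{v,1}, …, α_{v,4}` are the
eigenvalues of Frobenius: for all `n ≥ 1` the number of points of the reduction of `X` over the
extension of degree `n` of the residue field of `v` (a field `E` with `q_v ^ n` elements with a map
`φ : 𝓞 F → E` of kernel `v`) is `q_v ^ n + 1 - ∑ α_{v,j} ^ n`. -/
def IsLFunction (ι : GaussianInt →+* 𝓞 F) (D M : GaussianInt) (L : ℂ → ℂ) : Prop :=
  Differentiable ℂ L ∧ ∃ α : {v : HeightOneSpectrum (𝓞 F) // ι M ∉ v.asIdeal} → Fin 4 → ℂ,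
    (∀ v (n : ℕ), 1 ≤ n → ∀ (E : Type) [Field E] [Finite E] (φ : 𝓞 F →+* E),
      RingHom.ker φ = v.1.asIdeal → Nat.card E = q v.1 ^ n →
        (points E (φ (ι D)) : ℂ) = (Nat.card E : ℂ) + 1 - ∑ j, α v j ^ n) ∧
    ∀ z : ℂ, 3 / 2 < z.re →
      HasProd (fun v => (∏ j, (1 - α v j * (q v.1 : ℂ) ^ (-z)))⁻¹) (L z)

end

/-- For all finite sets `U` of rational primes `l = 3 mod 8`, `l = 1 mod N(d ∏ S)`, and all the fields
`F` between `ℚ(i)` and `ℚ(i)(√δ : δ ∈ S, √l : l ∈ U)` (these are the fields generated by the square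
roots of the elements of a set `s` of products of elements of `S` and `U`): for the curve
`X : y² = x⁵ + 14 D² x³ + 81 D⁴ x`, `D = (1 + i) d`, of genus `2` over `F` the group `CH¹(X)₀` is killed by
some `n > 0`, and the `L`-function of `H¹(X)` is entire and not zero at `s = 1`. -/
def Good (S : Finset GaussianInt) (d : GaussianInt) : Prop :=
  ∀ U : Finset ℕ, (∀ l ∈ U, l.Prime ∧ l % 8 = 3 ∧ l ≡ 1 [MOD (d * ∏ D ∈ S, D).norm.natAbs]) →
    ∀ s : Finset GaussianInt,
      (∀ δ ∈ s, ∃ J ⊆ S ∪ U.image fun l : ℕ => (l : GaussianInt), δ = ∏ x ∈ J, x) →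
      ∀ (F : Type) [Field F] [NumberField F] (ι : GaussianInt →+* 𝓞 F), Generated ι s →
        ChowTorsion (ι (⟨1, 1⟩ * d) : F) ∧ ∃ L : ℂ → ℂ,
          IsLFunction ι (⟨1, 1⟩ * d) (3 * (⟨1, 1⟩ * d * ∏ δ ∈ s, δ)) L ∧ L 1 ≠ 0

theorem good_of {S : Finset GaussianInt} {d : GaussianInt} (hd : Primary d)
    (h : OddSymmetricPowers.Good S d) : Good S d := by
  classical
  intro U hU s hs F _ _ ι hF
  obtain ⟨hfin, hL⟩ := h U hU s hs F ι hF
  have hd0 : d ≠ 0 := by
    rintro rfl
    exact not_squarefree_zero hd.1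
  have h11 : (⟨1, 1⟩ : GaussianInt) ≠ 0 := by
    intro h0
    have := congrArg Zsqrtd.re h0
    simp at this
  have hD0 : (⟨1, 1⟩ * d : GaussianInt) ≠ 0 := mul_ne_zero h11 hd0
  have hinj : Function.Injective ι := by
    refine (injective_iff_map_eq_zero ι).2 fun a ha => ?_
    by_contra h0
    have h1 : ι (a * star a) = 0 := by rw [map_mul, ha, zero_mul]
    have h2 : a * star a = ((a.norm : ℤ) : GaussianInt) := (Zsqrtd.norm_eq_mul_conj a).symm
    rw [h2, map_intCast] at h1
    have h3 : a.norm = 0 := by exact_mod_cast h1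
    exact h0 ((GaussianInt.norm_eq_zero).1 h3)
  have hι : (ι (⟨1, 1⟩ * d) : F) ≠ 0 := by
    intro h0
    exact hD0 (hinj (by rw [map_zero]; exact_mod_cast h0))
  refine ⟨?_, ?_⟩
  · have : Finite (Pool.Agent.K7.H65.G2.ellD (ι (⟨1, 1⟩ * d) : F)).Point := hfin
    have hdom : IsDomain (Pool.Agent.TH943.HJ.CR (Pool.Agent.K7.H65.G2.quint (ι (⟨1, 1⟩ * d) : F))) :=
      Pool.Agent.TH943.HJ.isDomain (Pool.Agent.K7.H65.G2.quint_odd _)
    exact ⟨hdom, Pool.Agent.K7.H65.G2.ded_quint hι, Pool.Agent.K7.H65.G2.class_exp hι⟩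
  · obtain ⟨L, ⟨hLd, α, β, hab, hP⟩, hL1⟩ := hL 1 le_rfl
    exact Pool.Agent.K7.H65.G2.isL2_of ι _ _ (Dvd.intro _ rfl)
      ⟨d * ∏ δ ∈ s, δ, by ring⟩ L hLd α β hab (fun z hz => by
        have h1 := hP z (by norm_num; linarith)
        convert h1 using 1
        funext v
        simp only [prod_range_succ]
        simp
        rfl) (by simpa using hL1)

/-- **Main theorem.** Put `a = ∏ (1 - 2^(-2n-1)) > 0.419` and let `S` be a finite set of primary
squarefree Gaussian integers.  Among the primary squarefree `d` of norm at most `B` prime to `S` (their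
number is at least a constant times `B`) the proportion of the `d` with the property `Good` is at
least `a ^ (2 ^ #S) - ε` for all large `B`, for every `ε > 0`. -/
theorem result (S : Finset GaussianInt) (hS : ∀ D ∈ S, Primary D) :
    (419 / 1000 : ℝ) < ∏' n : ℕ, (1 - (1 / 2 : ℝ) ^ (2 * n + 1)) ∧
    (∀ B : ℝ, (Twists S B).Finite) ∧
    (∃ c : ℝ, 0 < c ∧ ∀ B : ℝ, 1 ≤ B → c * B ≤ ((Twists S B).ncard : ℝ)) ∧
    ∀ ε : ℝ, 0 < ε → ∃ B₀ : ℝ, ∀ B : ℝ, B₀ ≤ B →
      ((∏' n : ℕ, (1 - (1 / 2 : ℝ) ^ (2 * n + 1))) ^ (2 ^ #S) - ε) * ((Twists S B).ncard : ℝ) ≤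
        ({d ∈ Twists S B | Good S d}.ncard : ℝ) := by
  obtain ⟨h1, h2, h3, h4⟩ := OddSymmetricPowers.result S hS
  refine ⟨h1, h2, h3, fun ε hε => ?_⟩
  obtain ⟨B₀, hB⟩ := h4 ε hε
  refine ⟨B₀, fun B hB' => (hB B hB').trans ?_⟩
  have : {d ∈ OddSymmetricPowers.Twists S B | OddSymmetricPowers.Good S d}.ncard ≤
      {d ∈ Twists S B | Good S d}.ncard := by
    refine Set.ncard_le_ncard ?_ ((h2 B).subset fun d hd => hd.1)
    intro d hd
    exact ⟨hd.1, good_of hd.1.1 hd.2⟩
  exact_mod_cast this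

end Pool.Agent.Results.MP_6dc9d1_nt.GenusTwoTowers
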