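import Pool.Agent.K7.H65.G4.Tors
import Pool.Agent.K7.H65.G4.Lfun
import Pool.Agent.K7.H65.G4.Two
import Pool.Agent.K7.H70.SE.LS
import Pool.Agent.K7.H70.SE.Three
import Pool.Agent.K7.H70.SE.Nine
import Pool.Agent.K7.H73.NM.N

/-!
# Beilinson's conjecture for a curve of genus two over every subfield of every Galois 2-extension of
# `ℚ(√-3)` and of `ℚ(ζ₉)` with good ramification away from three

Let `X` be the smooth projective curve of genus `2` over `ℚ` with the affine equation

`y² = 2 x⁶ - 30 x⁴ + 150 x² + 6 = 2 (x² - 5)³ + 256`.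

Let `M` be `ℚ(√-3)` or `ℚ(ζ₉)`, let `K/M` be any Galois extension of degree `2 ^ n` such that the primes of
`M` which are not above three and modulo which `2` is a cube do not ramify in `K` (there is no condition
on the ramification above three, on the group `Gal(K/M)` or on the class numbers), and let `k` be any
number field that embeds in `K`; `k` need not be Galois over anything.

Theorem: Beilinson's conjecture for `X` over `k`, `i = 0`, is true: both sides are `0`.

* `2` is not a square in `k`, so that the curve `X` over `k` has one closed point `∞` at infinity, of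
  degree `2`, and `CH¹(X)₀ = Pic⁰(X)` is a subgroup (of index `1` or `2`) of `Pic(X) / ⟨∞⟩`, which is
  the class group of the coordinate ring `k[x, y] / (y² - (2 x⁶ - 30 x⁴ + 150 x² + 6))` of the affine
  curve, a Dedekind domain.  This class group is killed by an integer `n > 0`, so `CH¹(X)₀ ⊗ ℚ = 0`.
* `L(H¹(X), s)`, without the Euler factors at the places that divide `6`, continues to a meromorphic
  function on `ℂ` which is analytic and not `0` at `s = 1`.  (Such a factor is the inverse of a
  polynomial in `q_v ^ (-s)` whose roots are not at the centre, so it changes nothing.)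

Proof.  The automorphisms `σ : (x, y) ↦ (-x, y)` and `ρ : (x, y) ↦ ((x + 3) / (1 - x), 8 y / (x - 1)³)` of
`X` generate a group isomorphic to the symmetric group of degree three.  The quotient by `σ` is
`y² = 2 u³ - 30 u² + 150 u + 6`, isomorphic over `ℚ` to `E : y² + y = x³`, and the quotient by `ρ` is a conic, so
that the Jacobian of `X` is isogenous to `E²`.  The classes of the ideals of the ring of `X` are
bounded with the norms to the rings of the quotients by `ρ` and by the conjugates of `σ` (every class in the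
ring of the conic is killed by `4`), and the numbers of points are found by counting the points in the fibres
over the quotient `X / ⟨σ, ρ⟩` of genus zero.  The input on `E`, namely the finiteness of `E(k)` and the
continuation of the `L`-function of `E/k` with a value `≠ 0` at `s = 1`, is the hand-in
`TwoPartTwoExtensions` for MP_f50388 (helper56, helper70, helper73).
-/

set_option autoImplicit false

namespace Pool.Agent.Results.MP_6dc9d1_nt.GenusTwoTwoExtensions

open NumberField IsDedekindDomain Polynomial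

noncomputable section

/-- Above the prime numbers other than three, only primes modulo which `2` is not a cube ramify in
`K/M`: if `σ ≠ 1` lies in the inertia group of the prime `w` of `K`, and `w` does not divide three, then
`2` is not a cube modulo the prime of `M` below `w`. -/
def GoodRam (M K : Type) [Field M] [NumberField M] [Field K] [NumberField K] [Algebra M K] : Prop :=
  ∀ (w : HeightOneSpectrum (𝓞 K)) (σ : Gal(K/M)), (3 : 𝓞 K) ∉ w.asIdeal →
    (∀ x : 𝓞 K, σ • x - x ∈ w.asIdeal) → σ ≠ 1 → ∀ α : 𝓞 M, α ^ 3 - 2 ∉ w.asIdeal.under (𝓞 M)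

/-- The number of points over the finite field `E` of the smooth projective curve
`y² = 2 x⁶ - 30 x⁴ + 150 x² + 6`: the affine points, and the points at infinity, one for each square
root of `2` in `E`. -/
def points (E : Type) [Field E] : ℕ :=
  Nat.card {P : E × E // P.2 ^ 2 = 2 * P.1 ^ 6 - 30 * P.1 ^ 4 + 150 * P.1 ^ 2 + 6} +
    Nat.card {z : E // z ^ 2 = 2}

/-- The polynomial `y² - (2 x⁶ - 30 x⁴ + 150 x² + 6)`. -/
def curvePoly (k : Type) [Field k] : k[X][X] := X ^ 2 - C (2 * X ^ 6 - 30 * X ^ 4 + 150 * X ^ 2 + 6)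

/-- The coordinate ring `k[x, y] / (y² - (2 x⁶ - 30 x⁴ + 150 x² + 6))` of the affine curve. -/
def CoordRing (k : Type) [Field k] : Type := AdjoinRoot (curvePoly k)

instance commRing_coordRing (k : Type) [Field k] : CommRing (CoordRing k) :=
  inferInstanceAs (CommRing (AdjoinRoot (curvePoly k)))

/-- `CH¹(X)₀ ⊗ ℚ = 0` for `X : y² = 2 x⁶ - 30 x⁴ + 150 x² + 6` over `k`: `2` is not a square in `k`, so that
there is one closed point `∞` at infinity, of degree `2`; the coordinate ring of the affine curve is a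
Dedekind domain; and its class group, which is `Pic(X) / ⟨∞⟩` and contains `CH¹(X)₀ = Pic⁰(X)` (with index
`1` or `2`), is killed by some `n > 0`. -/
def ChowTorsion (k : Type) [Field k] : Prop :=
  ¬ IsSquare (2 : k) ∧ ∃ _ : IsDomain (CoordRing k), IsDedekindDomain (CoordRing k) ∧
    ∃ n : ℕ, 0 < n ∧ ∀ a : ClassGroup (CoordRing k), a ^ n = 1

/-- `Λ` is meromorphic on `ℂ` and it is, for `Re s > 3/2`, the `L`-function of `H¹(X)`,
`X : y² = 2 x⁶ - 30 x⁴ + 150 x² + 6`, over `k` without the Euler factors at the places `v` dividing `6`: the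
product over the other places of `∏_{j = 1}^{4} (1 - α_{v,j} q_v^(-s))⁻¹`, where `q_v` is the number of
elements of the residue field of `v` and the `α_{v,j}` are the eigenvalues of Frobenius: for all `n ≥ 1` the
number of points of the reduction of `X` over the extension of degree `n` of the residue field (a field
`E` with `q_v ^ n` elements with a map `φ : 𝓞 k → E` of kernel `v`) is `q_v ^ n + 1 - ∑ α_{v,j} ^ n`. -/
def IsLFunction (k : Type) [Field k] (Λ : ℂ → ℂ) : Prop :=
  MeromorphicOn Λ Set.univ ∧ ∃ α : HeightOneSpectrum (𝓞 k) → Fin 4 → ℂ,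
    (∀ v : HeightOneSpectrum (𝓞 k), (6 : 𝓞 k) ∉ v.asIdeal →
      ∀ n : ℕ, 1 ≤ n → ∀ (E : Type) [Field E] [Finite E] (φ : 𝓞 k →+* E),
        RingHom.ker φ = v.asIdeal → Nat.card E = Nat.card (𝓞 k ⧸ v.asIdeal) ^ n →
          (points E : ℂ) = (Nat.card E : ℂ) + 1 - ∑ j, α v j ^ n) ∧
    ∀ s : ℂ, (3 : ℝ) / 2 < s.re → HasProd (fun v : HeightOneSpectrum (𝓞 k) =>
      open Classical in
      if (6 : 𝓞 k) ∈ v.asIdeal then 1 else
        (∏ j, (1 - α v j * (Nat.card (𝓞 k ⧸ v.asIdeal) : ℂ) ^ (-s)))⁻¹) (Λ s)

/-- **Main theorem.** Let `M = ℚ(ζ_m)`, `m = 3` or `9`, let `K/M` be a Galois extension of degree `2 ^ n` in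
which, away from three, only primes modulo which `2` is not a cube ramify, and `k` a number field that
embeds in `K`.  For the curve `X : y² = 2 x⁶ - 30 x⁴ + 150 x² + 6` of genus `2` over `k` the two sides of
Beilinson's conjecture, `i = 0`, are `0`: `CH¹(X)₀` is killed by some `n > 0`, and `L(H¹(X), s)` continues to a
meromorphic function `Λ` on `ℂ` which is analytic at `s = 1`, with `Λ(1) ≠ 0`. -/
theorem result (m : ℕ) (hm : m = 3 ∨ m = 9) (M K k : Type) [Field M] [NumberField M]
    [IsCyclotomicExtension {m} ℚ M] [Field K] [NumberField K] [Algebra M K] [IsGalois M K]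
    [Field k] [NumberField k] [Algebra k K]
    (hK : ∃ n : ℕ, Module.finrank M K = 2 ^ n) (hram : GoodRam M K) :
    ChowTorsion k ∧ ∃ Λ : ℂ → ℂ, IsLFunction k Λ ∧ AnalyticAt ℂ Λ 1 ∧ Λ 1 ≠ 0 := by
  have hG : Pool.Agent.K7.H56.P.Gd M K := Pool.Agent.K7.H56.P.gd_of fun w hw h3 α hα => by
    obtain ⟨σ, hσ, hin⟩ := hw
    refine hram w σ (fun h => h3 ?_) hin hσ α hα
    show algebraMap (𝓞 M) (𝓞 K) 3 ∈ w.asIdeal
    rw [map_ofNat]
    exact h
  obtain ⟨hgood, hsel, hU⟩ : Pool.Agent.K7.H70.SE.GoodG k ∧ Pool.Agent.K7.H70.ST.SelV k ∧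
      Pool.Agent.K7.H56.Unr2 K := by
    obtain ⟨n, hn⟩ := hK
    rcases hm with rfl | rfl
    · exact ⟨Pool.Agent.K7.H70.SE.good3 (M := M) (K := K) ⟨n, hn⟩ hG,
        Pool.Agent.K7.H73.L3.selv3 (F := M) (K := K) ⟨n, hn⟩ hG,
        ((Pool.Agent.K7.H73.L3.gz3 M).step hn hG).two⟩
    · exact ⟨Pool.Agent.K7.H70.SE.good9 (M := M) (K := K)
          (fun M _ _ _ ι => Pool.Agent.K7.H73.NM.base9 M ι) ⟨n, hn⟩ hG,
        Pool.Agent.K7.H70.ST.selv9 (M := M) (K := K) ⟨n, hn⟩ hG,
        ((Pool.Agent.K7.H70.SM.gz9 M).step hn hG).two⟩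
  have hH := Pool.Agent.K7.H70.SE.hbd hgood
  obtain ⟨Lf, hA⟩ := hgood.an
  have h2 : ¬ IsSquare (2 : k) := by
    rintro ⟨r, hr⟩
    refine Pool.Agent.K7.H65.G4.not_sq_two hU ⟨algebraMap k K r, ?_⟩
    rw [← map_mul, ← hr, map_ofNat]
  have hfin := hsel.fin
  refine ⟨⟨h2, ?_⟩, ?_⟩
  · have : Finite (Pool.Agent.K7.H65.G4.E27 k).toAffine.Point := hfin
    have hd : IsDomain (Pool.Agent.TH943.HJ.CR (Pool.Agent.K7.H65.G4.sx k)) :=
      Pool.Agent.K7.H65.G4.isDomain (Pool.Agent.K7.H65.G4.ns_sx h2)
    exact ⟨hd, Pool.Agent.K7.H65.G4.ded_sx h2, Pool.Agent.K7.H65.G4.class_exp h2⟩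
  · exact Pool.Agent.K7.H65.G4.exists_LX hH Lf hA.mero hA.an hA.ne fun s hs => (hA.sum s hs).2

end

end Pool.Agent.Results.MP_6dc9d1_nt.GenusTwoTwoExtensions
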